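import Mathlib
import Pool.Agent.V5helper93.GTC.FinV
import Pool.Agent.V5helper93.GTC.Defs
import Pool.Agent.Y128.GT.Defs
import Pool.Agent.Y128.GT.Defs2
import Pool.Agent.N171.St
import Pool.Agent.N171.PmDefs
import Pool.Agent.N171.AsmW

/-!
# The generalized Tate conjecture for `J ^ n × Z`: the Künneth formula for the Galois coniveau

`K` is a field of characteristic different from two and `F` an algebraically closed extension field
(the main case: `K` is a number field, `F` an algebraic closure of `K`). Let `f` be a monic separable
polynomial of odd degree `≥ 7` over `K` whose Galois group is the symmetric or the alternating group, and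
let `J` be the Jacobian of the hyperelliptic curve `y ^ 2 = f (x)`; the group `J (F)` is the class group
of the coordinate ring `F[x, y]` of the affine curve, with the action of the Galois group on the
coefficients, and `V` is the rational 2-adic Tate module of `J`. No property of the curve at any
place is used.

`W` is any 2-adic representation of the Galois group of `K` with a stable lattice `L`, for
instance `W = H ^ b (Z, ℚ_2)` for an arbitrary smooth projective variety `Z` over `K`. It is related to the
curve only by the condition that the splitting field of `f` is not contained in the field generated by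
the action on `L / 2`; this holds automatically if `(deg f)! > 2 ^ (d ^ 2 + 1)` with `d = dim W`.

The step `ν` of the Galois coniveau filtration of `H ^ i (J ^ n, ℚ_2) ⊗ W`, the space of the alternating
forms in `i` variables on `V ^ n` with values in `W`, is the sum of the stable subspaces `U` whose
twists `U(ν)` are entire: all the eigenvalues of the geometric Frobenius elements on `U(ν)` are algebraic
integers. It is tested at any set `P` of places of `K` at which `J` has good ordinary
reduction and at which the Frobenius eigenvalues of `W` are algebraic integers.

The theorem: this step is contained in the sum, over `c ≤ ν`, of the products of `c` divisor classes (Tate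
classes of degree two) of `J ^ n`, arbitrary classes of degree `i - 2 c` of `J ^ n` and classes of `W` in
the step `ν - c` of the Galois coniveau filtration of `W`. Products of `c` divisors on `J ^ n` with
classes on `Z` supported in codimension `ν - c` are supported in codimension `ν`. So the generalized Tate
conjecture (in this form, tested at `P`, for `ℓ = 2`) for `J ^ n × Z`, in all degrees and for all levels
and all `n`, follows from the generalized Tate conjecture for `Z`.

Idea. The Galois group contains elements which are close to one on `V` and infinitely closer to one on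
`W`, and their directions are all the elements of the symplectic Lie algebra of `V` (large image modulo
two). Hence the spaces of forms with values in `W` stable under the Galois group are stable under
the derivations given by the symplectic Lie algebra of `V`. For a functional `λ` on `W ⊗ K` (`K` an
algebraic closure) in the part of small slopes with respect to a valuation over the place, the space of the
forms `λ ∘ f` is stable under this Lie algebra and consists of forms of large slopes, thus of
combinations of products of divisor classes; therefore the values of the forms modulo such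
products have large slopes.
-/

set_option autoImplicit false

namespace Pool.Agent.Results.MP_8abef2_ag.KunnethConiveau

open Polynomial Pool.Agent.N171 Pool.Agent.Y128.GT Pool.Agent.V5helper93.GTC

/-- The automorphisms of `F` over `K` induce all the even permutations of the roots of `f`. -/
def BigGal {K : Type} [Field K] (f : K[X]) (F : Type) [Field F] [Algebra K F] : Prop :=
  open Classical in ∀ π : Equiv.Perm (f.rootSet F), Equiv.Perm.sign π = 1 →
    ∃ s : F ≃ₐ[K] F, ∀ x : f.rootSet F, s (x : F) = (π x : F)

/-- The representation on `W` has a stable lattice `L`, of rank `d`, over the 2-adic integers such that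
either `2 ^ (d ^ 2 + 1)` is less than the factorial of the degree of `f`, or the splitting field of `f`
is not contained in the field given by the action on `L / 2`. -/
def Free {K F W : Type} [Field K] [Field F] [Algebra K F] [AddCommGroup W] [Module ℚ_[2] W]
    (f : K[X]) (τ : Representation ℚ_[2] (F ≃ₐ[K] F) W) : Prop :=
  ∃ (d : ℕ) (b : Module.Basis (Fin d) ℚ_[2] W), (∀ s, TrivMod b (τ s) 0) ∧
    (2 ^ (d ^ 2 + 1) < f.natDegree.factorial ∨
      ∃ s : F ≃ₐ[K] F, TrivMod b (τ s) 1 ∧ ∃ x ∈ f.rootSet F, s x ≠ x)

section

variable {k V W Γ : Type} [Field k] [AddCommGroup V] [Module k V] [AddCommGroup W] [Module k W]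
  [Group Γ]

/-- `P` is a set of triples `(γ, p, a)` with `p` prime and `a > 0` such that `γ` acts on `V` like an
(arithmetic) Frobenius element at a place of ordinary reduction with a residue field of `p ^ a` elements,
and the eigenvalues of `γ⁻¹` on `W` are algebraic integers. -/
def GoodPlaces [FiniteDimensional k V] (ρ : Representation k Γ V) (χ : Γ →* k)
    (τ : Representation k Γ W) (P : Set (Γ × ℕ × ℕ)) : Prop :=
  ∀ x ∈ P, x.2.1.Prime ∧ 0 < x.2.2 ∧ OrdinaryFrobenius ρ χ x.2.1 x.2.2 x.1 ∧
    EntireOn x.2.1 x.2.2 0 (τ x.1⁻¹) ⊤

/-- For all `n`, `i` and `ν` the step `ν` of the Galois coniveau filtration of the space of the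
alternating forms in `i` variables on `V ^ n` with values in `W` is contained in the sum, over `c ≤ ν`, of
the tensor products of the span of the products of `c` Tate classes of degree two (and one arbitrary
class) with the step `ν - c` of the Galois coniveau filtration of `W`. -/
def KunnethFormula (ρ : Representation k Γ V) (χ : Γ →* k) (τ : Representation k Γ W)
    (P : Set (Γ × ℕ × ℕ)) : Prop :=
  ∀ n i ν : ℕ, coniv (altRep ρ τ n i) P ν ≤ ⨆ (c : ℕ) (_ : c ≤ ν),
    tens (Submodule.span k (divisorProducts ρ χ n i c)) (coniv τ P (ν - c))

end

/-- **The Künneth formula for the Galois coniveau of `J ^ n × Z`.** -/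
theorem result {K F : Type} [Field K] [Field F] [Algebra K F] [IsAlgClosed F] (f : K[X]) [HypP f]
    (h7 : 7 ≤ f.natDegree) (hG : BigGal f F)
    {W : Type} [AddCommGroup W] [Module ℚ_[2] W] (τ : Representation ℚ_[2] (F ≃ₐ[K] F) W)
    (hτ : Free f τ) (P : Set ((F ≃ₐ[K] F) × ℕ × ℕ))
    (hP : GoodPlaces (vRep (JacP f F) (F ≃ₐ[K] F)) (cycQ K F) τ P) :
    KunnethFormula (vRep (JacP f F) (F ≃ₐ[K] F)) (cycQ K F) τ P := by
  classical
  obtain ⟨h1, h2⟩ := hyp_data (F := F) f
  have hcard : Fintype.card (f.rootSet F) = f.natDegree :=
    card_rootSet_eq_natDegree (HypP.sep (f := f)) (IsAlgClosed.splits _)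
  obtain ⟨d, b, hb, hfr⟩ := hτ
  have hfin : Module.Finite ℚ_[2] W := Module.Finite.of_basis b
  obtain ⟨_, ω, hω⟩ := Hyp.ctx_P (K := K) (f.map (algebraMap K F)) (rf_fix f)
    (fun x : f.rootSet F => (x : F)) h2 h1.two
    (by rw [hcard]; exact (by norm_num : 6 ≤ 7).trans h7) (fun π hπ => by
      obtain ⟨s, hs⟩ := hG π (by convert! hπ)
      exact ⟨s, hs⟩)
  have hctx := hω W τ ⟨d, b, hb, fun _ => by
    rcases hfr with h3 | ⟨s, hs, x, hx, hsx⟩
    · exact Or.inl (by rw [hcard]; exact h3)
    · exact Or.inr ⟨s, hs, ⟨x, hx⟩, hsx⟩⟩
  exact fun n i ν => hctx.kunneth (fun x hx => ⟨(hP x hx).1, (hP x hx).2.1, (hP x hx).2.2.1⟩)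
    (fun x hx => (hP x hx).2.2.2) n i ν

end Pool.Agent.Results.MP_8abef2_ag.KunnethConiveau
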