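import Mathlib
import Pool.Agent.V5helper90.GC.Main

/-!
# The generalized Tate conjecture for the products of any variety with 100% of the families of ordinary
abelian varieties over finite fields

Let `p` be a prime number, `κ` a finite set and `g i`, `i ∈ κ`, positive numbers. The set
`Stratum g (fun _ _ => 0) p a` consists of the families `(P i)` of Frobenius polynomials (`IsFrobPoly`)
of **ordinary** abelian varieties `A i` of dimension `g i` over the field with `q = p ^ a` elements (the
slopes are `0` and `1`, each `g i` times); by Honda and Tate these are the families of isogeny classes of
ordinary abelian varieties. Let `L₀` be a number field in `ℂ`.

**The theorem.** For every `ε > 0` and every `N` and all large `a` the set `Stratum g (fun _ _ => 0) p a`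
is finite with at least `N` elements, and for all families `(P i)` in it but at most
`ε * #Stratum g (fun _ _ => 0) p a` the following holds (`KunnethConiveau`). Let `A` be an abelian variety
which over the field with `q ^ s` elements is isogenous to a product of powers of the `A i`, and let `Z` be
**any** smooth projective variety over the field with `q ^ s` elements, such that the eigenvalues of the
Frobenius on its cohomology have powers in `L₀`. Then the step `ν` of the Galois coniveau
filtration of the cohomology of `A × Z` (the span of the subrepresentations `U` such that `U(ν)` is
effective, that is of the generalized eigenspaces of Frobenius for the eigenvalues divisible by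
`q ^ (s ν)`) is contained in the sum, over `c ≤ ν`, of the products of `c` Tate classes of degree two of
`A`, arbitrary classes of `A`, and classes in the step `ν - c` of the Galois coniveau filtration of `Z`.

**Every variety `Z` over an algebraic closure of the field with `p` elements satisfies the condition, if
`L₀` is large enough**: if `Z` comes from the field with `p ^ b` elements and the eigenvalues of its
Frobenius lie in `L₀`, then the `b`-th powers of the eigenvalues of the Frobenius relative to the fields
with `p ^ (a s)` elements lie in `L₀`, for all `a` and `s`.

By the theorem of Tate the Tate classes of degree two on `A` are combinations of divisors. The product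
of `c` divisors on `A` with any class on `A` and with a class on `Z` with support in codimension
`ν - c` has support in codimension `ν`. So for 100% of the families of isogeny classes of ordinary
abelian varieties of given dimensions

* **the generalized Tate conjecture holds for all products of powers of the `A i`** (`Z` is a point);
* **the generalized Tate conjecture for the products `A × Z` of all such `A` with `Z` follows from the
  generalized Tate conjecture for `Z`**, for any given variety `Z`. For instance it holds for `A × Z` in
  all degrees if `Z` is a curve, or a surface for which the Tate conjecture is known.

Nothing is assumed on `Z`: neither the Tate conjecture nor the semisimplicity of Frobenius (`coniveau` is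
defined with generalized eigenvectors). It is not known that the generalized Tate conjecture is stable
under products.

**What is new.** In the starting file `DivisorialConiveau` of this folder the Galois coniveau filtration
of the powers of a given family of abelian varieties is shown to be divisorial if and only if their
Weil numbers satisfy a condition (`AllTypesOccur`); there is no factor `Z`, and no information how often
the condition is satisfied. `BoundedGeneration` is a finiteness result for arbitrary varieties,
`NumberFieldPowers` and `KunnethConiveau` are about number fields (the latter about Jacobians with
very large Galois images, at the prime 2, and about places with ordinary reduction of the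
Jacobian). Here all isogeny classes of ordinary abelian varieties over the field with `p ^ a` elements are
counted.

**The proof.** The counting is the one of the starting files `Pool.Agent.W518.DN` (the Frobenius
polynomials of a Newton stratum are the points of translates of lattices in a convex body, and their
reductions modulo the primes `ℓ ≠ p` are equidistributed); it is used for primes which split
completely in `L₀` to show that for 100% of the families each pair `z`, `q / z` of roots of `P i` is
exchanged by an automorphism of `ℂ` which fixes all other roots of all the polynomials and all elements
of `L₀` (`density_over`). Let now `U` be a one-dimensional piece of the cohomology of `A × Z`: a product of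
eigenvectors for roots `z k` of the polynomials and of a generalized eigenvector of `Z` for `ρ`. Match as
many pairs of variables with `z k * z l = q` as possible. The divisors account for `c₀` pairs, and the
numbers in the remaining variables are pairwise not complex conjugate. Fix a `p`-adic absolute value. With
the automorphisms above all remaining numbers become units for it, while a power of `ρ` and all elements of
`L₀` are fixed (`exists_units`). Comparing the absolute values we see that `ρ` is divisible by the
power `ν - c₀` of `q ^ s` at this place. The choice of the automorphism depends on the place, but the
conclusion does not; so the quotient is an algebraic integer, and the eigenvector of `Z` lies in the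
step `ν - c₀` (`kunneth`).
-/

set_option autoImplicit false

namespace Pool.Agent.Results.MP_8abef2_ag.OrdinaryFamilies

open Pool.Agent.V5helper90.NS Pool.Agent.V5helper90.GC

/-- **The Künneth formula for the Galois coniveau of `A × Z`, for any variety `Z` and 100% of the families
of ordinary abelian varieties over finite fields.** -/
theorem result (L₀ : IntermediateField ℚ ℂ) [FiniteDimensional ℚ L₀]
    {κ : Type} [Fintype κ] [Nonempty κ] (p : ℕ) [Fact p.Prime]
    (g : κ → ℕ) (hg : ∀ i, 1 ≤ g i) (N : ℕ) (ε : ℝ) (hε : 0 < ε) :
    ∃ a₀ : ℕ, ∀ a, a₀ ≤ a →
      (Stratum g (fun _ _ => 0) p a).Finite ∧ N ≤ (Stratum g (fun _ _ => 0) p a).ncard ∧
      ({P ∈ Stratum g (fun _ _ => 0) p a | ¬ KunnethConiveau L₀ (p ^ a) P}.ncard : ℝ) ≤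
        ε * ((Stratum g (fun _ _ => 0) p a).ncard : ℝ) :=
  density_over L₀ p g hg (fun _ _ => 0)
    (fun i => ⟨fun _ _ _ => le_rfl, fun _ => le_rfl, fun _ => by norm_num,
      fun x _ => ⟨((Finset.univ.filter fun _ : Fin (g i) => (0 : ℚ) = x).card : ℤ) * 0, by
        by_cases hx : (0 : ℚ) = x
        · rw [← hx]
          simp
        · have h1 : (Finset.univ.filter fun _ : Fin (g i) => (0 : ℚ) = x) = ∅ :=
            Finset.filter_false_of_mem fun _ _ => hx
          rw [h1]
          simp⟩⟩)
    (fun i => ⟨⟨0, hg i⟩, by norm_num⟩) N ε hε (fun a P => KunnethConiveau L₀ (p ^ a) P)
    fun _ _ ha hP h => kunneth h ha fun i => (hP i).2.2

end Pool.Agent.Results.MP_8abef2_ag.OrdinaryFamilies
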