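import Mathlib
import Pool.Agent.V5helper93.SMQ.Nice

/-!
# The generalized Tate conjecture for `Y^(a_1) × ... × Y^(a_m) × Z`, `m ≤ p_g(Y)`

`Y` is a smooth projective variety over a number field `K` and `M` is a summand of
`H ^ w (Y, ℚ_ℓ)`, for instance the part given by the vanishing cycles; for a surface `w = 2` and `M` is
the transcendental part of `H ^ 2`. `T` is the dual space of `M`, with the representation `ρ` of the
Galois group `Γ` of `K` and the form `B`, which is symmetric (`ε = 1`) or alternating (`ε = -1`). `Z` is
an arbitrary smooth projective variety over `K` and `W = H ^ b (Z, ℚ_ℓ)` with the representation `τ`. The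
space of the multilinear maps `T ^ n → W` is `M ^ {⊗ n} ⊗ W`, a summand of
`H ^ (n w + b) (Y ^ n × Z, ℚ_ℓ)`. A map `β : Fin n → Fin m` divides the `n` variables into `m` blocks,
`a_i` variables in the block `i`, and the maps which are symmetric in the variables of each block form the
space `Sym ^ {a_1} M ⊗ ... ⊗ Sym ^ {a_m} M ⊗ W`. For even `w` this is a summand of the cohomology of
`Y^(a_1) × ... × Y^(a_m) × Z`, where `Y^(a)` is the symmetric product. It contains all Schur functors of
`M` given by partitions with at most `m` rows, for instance all of `M ^ {⊗ n}` if `n ≤ m` (`β` injective).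

Hypothesis `DenseImage`: the elements of `Γ` which act trivially on `W` have, up to scalars, Zariski dense
image in the special orthogonal group or the symplectic group of `B`. (If the image of `Γ` in the group
of similitudes of `B` is open, as it is for the K3 surfaces `Y` with `End M = ℚ` by Tankeev and André and
for the general members of Lefschetz pencils, this holds whenever `Z` is independent of `Y`, i.e. the
Lie algebra of the image of `Γ` in `GL(W)` has no quotient which comes from the Lie algebra of `B`.)

`P` is any set of Frobenius elements which are semisimple on `T`, with at least `m` eigenvalues on `M`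
which are `p`-adic units (for a place of ordinary reduction this means `m ≤ h ^ {0, w} (Y)`, so
`m ≤ p_g` for a surface) and with integral eigenvalues on `W`.

The theorem: let `2 m < dim T` if `B` is symmetric. A map which is symmetric in the blocks is in the
step `ν` of the Galois coniveau filtration of `M ^ {⊗ n} ⊗ W`, tested at `P`, if and only if it is a sum, over
`c`, of products of `c` classes `B` in pairs of factors, arbitrary classes of the other factors
and classes of `W` in the step `ν - w c` of the Galois coniveau filtration of `W`. The class `B` on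
`Y × Y` is a component of the diagonal, of codimension `w` if `w = dim Y`. So the Galois
coniveau of `Y^(a_1) × ... × Y^(a_m) × Z` is computed by the Galois coniveau of `Z` and algebraic classes, and the
generalized Tate conjecture (in this form, tested at `P`) for `Z` implies it for these products.
-/

set_option autoImplicit false

namespace Pool.Agent.Results.MP_8abef2_ag.SymmetricPowers

open Module Pool.Agent.V5helper93.GTC Pool.Agent.V5helper93.SMP Pool.Agent.V5helper93.SMQ

/-- **The Künneth formula for the Galois coniveau of symmetric powers.** -/
theorem result {k T W Γ : Type} [Field k] [CharZero k] [AddCommGroup T] [Module k T]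
    [FiniteDimensional k T] [AddCommGroup W] [Module k W] [FiniteDimensional k W] [Group Γ]
    (ρ : Representation k Γ T) (τ : Representation k Γ W) (χ : Γ →* k) (B : T →ₗ[k] T →ₗ[k] k)
    (ε : ℤ) (w m n : ℕ) (β : Fin n → Fin m) (hw : 0 < w) (hB : Polarized ε B ρ χ w)
    (hm : ε = 1 → 2 * m < finrank k T) (big : DenseImage B ρ τ) (P : Set (Γ × ℕ × ℕ))
    (hP : ∀ x ∈ P, x.2.1.Prime ∧ 0 < x.2.2 ∧ UnitFrobenius ρ χ m x.2.1 x.2.2 x.1 ∧
      EntireOn x.2.1 x.2.2 0 (τ x.1⁻¹) ⊤) (ν : ℕ) (f : MultilinearMap k (fun _ : Fin n => T) W)
    (hf : f ∈ symMaps β) :
    f ∈ coniv (mulRep ρ τ (Fin n)) P ν ↔ f ∈ productPart B τ P w ν (Fin n) := by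
  have h := kunneth_eq hB hw big.big hm (fun x hx => ⟨(hP x hx).1, (hP x hx).2.1,
    (hP x hx).2.2.1⟩) (fun x hx => (hP x hx).2.2.2) β ν
  rw [tgt_eq] at h
  have h1 : f ∈ coniv (mulRep ρ τ (Fin n)) P ν ⊓ symMaps β ↔
      f ∈ productPart B τ P w ν (Fin n) ⊓ symMaps β := by rw [h]
  simpa only [Submodule.mem_inf, hf, and_true] using h1

end Pool.Agent.Results.MP_8abef2_ag.SymmetricPowers
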