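import Pool.Agent.V5helper48.WC.Gtc2

/-!
# The generalized Tate conjecture, weight complexes and trilinear forms

`k` is a number field or a finite field (or any perfect field with enough places), `T` consists of the
category of Chow motives over `k` with rational coefficients, of the motives `h X` of the smooth
projective varieties `X` over `k`, and of the weight complexes `W X` of all schemes `X` over `k` (Gillet
and Soulé): in characteristic zero, for `X` smooth with a smooth compactification `Y` and boundary
`D_1 ∪ ⋯ ∪ D_s` with normal crossings, `W X` is the complex `h Y → ⊕ h D_i → ⊕ h (D_i ∩ D_j) → ⋯`.
`G` is the `ℓ`-adic cohomology of motives with the action of the Galois group. `GTC G M` is the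
generalized Tate conjecture for the motive `M`: for all `i` and `ν` the Galois subrepresentations `V` of
`H^i(M)` with `V(ν)` effective are contained in the sum of the images of all morphisms `h Y (-ν) → M`, `Y`
smooth projective. For `M = h X` this is the conjecture for `X` in all degrees and for all `ν ≥ 0`
(`GTCFor G X`), because the images of the correspondences of degree `ν` from `Y` to `X` generate
`N^ν H^i(X)`. (The weights of `V(ν)` are as they should be, by Deligne; as usual the integrality is required
at almost all places.)

`T.Built S X` says that `W X` lies in the thick subcategory generated by the class `S` of motives; here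
`S` is the class of all motives which satisfy the generalized Tate conjecture.

Theorem. For each `n` the following statements are equivalent:

* the generalized Tate conjecture holds for all smooth projective varieties over `k` of dimension at
  most `n`;
* the weight complexes of all schemes over `k` of dimension at most `n` are built from motives which
  satisfy the conjecture;
* for all `a, b, c`, one of them at most `n + 2`, and all trilinear forms `R` in `a + b + c` variables with
  coefficients in `k`, the weight complex of the smooth affine cubic `R(x, y, z) = 1` is built from
  motives which satisfy the conjecture.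

The last statement holds for the trilinear forms with a block of at most three variables (the
conjecture is clear for curves); for surfaces, where it contains the Tate conjecture for divisors, the
question is about the cubics with a block of four variables. For a prime field `k` it is enough to take all
coefficients equal to `0` or `1`. The varieties over `ℚ` (over the field with `p` elements) need not be
geometrically connected, so by restriction of scalars the conjecture for all varieties over all number
fields (over all finite fields of characteristic `p`) is equivalent to the statement that for each
tripartite hypergraph `H` the weight complex of the cubic `∑_{(i, j, l) ∈ H} x_i y_j z_l = 1` over the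
prime field is built from motives which satisfy the conjecture.

Proof. A motive which (as a complex in degree zero) lies in the thick subcategory generated by a class
`S` closed under direct sums and summands lies in `S`. The motives with the generalized Tate conjecture form
a class closed under sums, summands and Tate twists. The class of the schemes whose weight complex is
built from `S` is closed under the operations used in the universality of the cubics; the smooth projective
varieties of dimension at most `n` generate all schemes of dimension at most `n` by de Jong's
alterations and transfers.
-/

set_option autoImplicit false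

open CategoryTheory AlgebraicGeometry
open Pool.Agent.Y116.UV Pool.Agent.Q193.LT Pool.Agent.V5helper77.GW Pool.Agent.V5helper48.WC

namespace Pool.Agent.Results.MP_8abef2_ag.WeightComplexes

/-- **The generalized Tate conjecture and the weight complexes of trilinear cubics.** -/
theorem result {k : Type} [Field k] [PerfectField k] (hA : DeJong k) (T : ChowData k)
    (hT : IsChowTheory IsSmProj T) (ht : HasTransfer T) (G : GaloisData T)
    (hG : IsGaloisData G) :
    (∀ n : ℕ, ((∀ X : Sch k, IsSmProj X → topologicalKrullDim X.left ≤ n → GTCFor G X) ↔
        ∀ X : Sch k, FT True X → topologicalKrullDim X.left ≤ n → T.Built (GTC G) X) ∧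
      ((∀ X : Sch k, IsSmProj X → topologicalKrullDim X.left ≤ n → GTCFor G X) ↔
        ∀ (a b c : ℕ) (R : Fin a → Fin b → Fin c → k), (a ≤ n + 2 ∨ b ≤ n + 2 ∨ c ≤ n + 2) →
          T.Built (GTC G) (hypS R))) ∧
    ((∀ X : Sch k, IsSmProj X → topologicalKrullDim X.left ≤ 1 → GTCFor G X) →
      ∀ (a b c : ℕ) (R : Fin a → Fin b → Fin c → k), (a ≤ 3 ∨ b ≤ 3 ∨ c ≤ 3) →
        T.Built (GTC G) (hypS R)) ∧
    (Frac k → ((∀ X : Sch k, IsSmProj X → GTCFor G X) ↔
      ∀ (a b c : ℕ) (H : Finset (Fin a × Fin b × Fin c)), T.Built (GTC G) (tripS k H))) := by
  have hS := gtc_stable hT hG
  have hd := deJong_devissage hT ht hS hA
  have h2 : ∀ X : Sch k, IsSmProj X → FT True X := fun X hX => ft_of_smProj hX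
  have h3 : ∀ n : ℕ, (∀ X : Sch k, IsSmProj X → topologicalKrullDim X.left ≤ n → GTCFor G X) ↔
      ∀ X : Sch k, IsSmProj X → topologicalKrullDim X.left ≤ n → GTC G (T.h X) := fun n =>
    forall_congr' fun X => forall_congr' fun hX => imp_congr_right fun _ => gtc_of_gtcFor hG hX
  have h4 : (∀ X : Sch k, IsSmProj X → GTCFor G X) ↔
      ∀ X : Sch k, IsSmProj X → GTC G (T.h X) :=
    forall_congr' fun X => forall_congr' fun hX => gtc_of_gtcFor hG hX
  refine ⟨fun n => ?_, fun h => ?_, fun hk => ?_⟩
  · rw [h3 n]
    exact graded_of hT hS (fun _ h => h) h2 n (hd n)
  · exact (graded_of hT hS (fun _ h => h) h2 1 (hd 1)).2.mp ((h3 1).mp (by exact_mod_cast h))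
  · rw [h4]
    exact graphs_of hk hT hS (fun _ h => h) h2 hd

end Pool.Agent.Results.MP_8abef2_ag.WeightComplexes
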